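import Pool.Agent.Q28.KS.Main

/-!
# Orthogonal families in subspaces of the rational K3 lattice
-/

set_option autoImplicit false

namespace Pool.Agent.Q28.KS

open Pool.Agent.Q28.KI Module

/-- orthogonal families with prescribed negative squares -/
theorem lattice_neg {r : ℕ} {N : Submodule ℚ V} (hN : Good N) (hr : r + 3 ≤ finrank ℚ N)
    (a : Fin r → ℚ) (ha : ∀ i, a i < 0) : ∃ v : Fin r → V, (∀ i, v i ∈ N) ∧ IsOrthogonal v a :=
  Good.chain meyer' r N hN hr a ha

/-- orthogonal families with squares `-1` and the last one minus a sum of two squares -/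
theorem lattice_squares {r : ℕ} {N : Submodule ℚ V} (hN : Good N) (hr : r + 3 ≤ finrank ℚ N) :
    ∃ (v : Fin (r + 1) → V) (x y : ℚ), x ^ 2 + y ^ 2 ≠ 0 ∧ (∀ i, v i ∈ N) ∧
      IsOrthogonal v (squares r x y) :=
  Good.chain_squares meyer' r N hN hr

/-- subspaces of dimension at least 18 -/
theorem lattice_eighteen {N : Submodule ℚ V} (hN : Good N) (hr : 18 ≤ finrank ℚ N) :
    ∃ v : Fin 15 → V, (∀ i, v i ∈ N) ∧ IsOrthogonal v (fun _ => -1) :=
  lattice_neg hN hr _ fun _ => by norm_num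

/-- subspaces of dimension at least 17 -/
theorem lattice_seventeen {N : Submodule ℚ V} (hN : Good N) (hr : 17 ≤ finrank ℚ N) :
    ∃ (v : Fin 15 → V) (x y : ℚ), x ^ 2 + y ^ 2 ≠ 0 ∧ (∀ i, v i ∈ N) ∧
      IsOrthogonal v (squares 14 x y) :=
  lattice_squares hN hr

end Pool.Agent.Q28.KS
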