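import Pool.Agent.Q168.MY.Meyer
import Pool.Agent.Q28.KI.Main

/-!
# Meyer's theorem

An indefinite rational quadratic form in five variables has a nontrivial zero.
-/

set_option autoImplicit false

namespace Pool.Agent.Q28.KS

open Pool.Agent.W313.BMX (Splits splits_comm splits_mul_sq)
open Pool.Agent.Q168.MY
open Finset

/-- Meyer's theorem for the forms `a x^2 + b y^2 + c z^2 + d w^2 - t^2` with `d > 0`. -/
theorem meyer_int {a1 a2 a3 a4 : ℤ} (h1 : a1 ≠ 0) (h2 : a2 ≠ 0) (h3 : a3 ≠ 0) (h4 : 0 < a4) :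
    ∃ r1 r2 r3 r4 t : ℚ, ¬ (r1 = 0 ∧ r2 = 0 ∧ r3 = 0 ∧ r4 = 0 ∧ t = 0) ∧
      a1 * r1 ^ 2 + a2 * r2 ^ 2 + a3 * r3 ^ 2 + a4 * r4 ^ 2 = t ^ 2 := by
  classical
  have hloc : ∀ l : ℕ, ∀ _ : Fact l.Prime, ∃ x y : ℚ_[l], x ≠ 0 ∧ y ≠ 0 ∧
      Splits ((a1 : ℚ_[l]) * x) ((a2 : ℚ_[l]) * x) ∧ Splits y (-(a3 : ℚ_[l]) * y) ∧
      Splits ((a4 : ℚ_[l]) * y) (x * y) := fun l hl =>
    local_xy l (by exact_mod_cast h1) (by exact_mod_cast h2) (by exact_mod_cast h3)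
      (by exact_mod_cast h4.ne')
  choose x y hx0 hy0 hxa hy3 hy4 using hloc
  obtain ⟨S, hS⟩ : ∃ S : Finset ℕ, S = insert 2 (a1 * a2 * a3 * a4).natAbs.primeFactors := ⟨_, rfl⟩
  have hne : a1 * a2 * a3 * a4 ≠ 0 := mul_ne_zero (mul_ne_zero (mul_ne_zero h1 h2) h3) h4.ne'
  have hSp : ∀ l ∈ S, l.Prime := by
    intro l hl
    rw [hS, Finset.mem_insert] at hl
    rcases hl with rfl | hl
    · exact Nat.prime_two
    · exact Nat.prime_of_mem_primeFactors hl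
  have hS2 : 2 ∈ S := by rw [hS]; exact Finset.mem_insert_self _ _
  have hSd : ∀ l : ℕ, l.Prime → (l : ℤ) ∣ a1 * a2 * a3 * a4 → l ∈ S := by
    intro l hl h
    rw [hS, Finset.mem_insert]
    right
    rw [Nat.mem_primeFactors]
    exact ⟨hl, Int.natCast_dvd.1 h, Int.natAbs_ne_zero.2 hne⟩
  obtain ⟨s, hs, hsa⟩ : ∃ s : ℤ, (s = 1 ∨ s = -1) ∧ ¬ (a1 * s < 0 ∧ a2 * s < 0) := by
    rcases lt_or_gt_of_ne h1 with h | h
    · exact ⟨-1, Or.inr rfl, by omega⟩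
    · exact ⟨1, Or.inl rfl, by omega⟩
  obtain ⟨q, z, hq, hqS, hz, hsz, hzx, hzl⟩ := approx S hSp (s := s) hs x hx0
  have r1 := rep_global hSp hS2 (s := s) hs hx0 hq hqS hz hsz hzx hzl
    (a := a1) (b := a2) h1 h2
    (fun l hl h => hSd l hl (Dvd.dvd.mul_right (Dvd.dvd.mul_right (Dvd.dvd.mul_right h _) _) _))
    (fun l hl h => hSd l hl (Dvd.dvd.mul_right (Dvd.dvd.mul_right (Dvd.dvd.mul_left h _) _) _))
    (fun l hl hlp => hxa l hlp) hsa
  -- the quaternary form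
  have r2 : ∃ w : ℤ, w ≠ 0 ∧ 0 < 1 * w ∧ Splits (((1 * w : ℤ)) : ℚ) (((-a3 * w : ℤ)) : ℚ) ∧
      Splits (((a4 * w : ℤ)) : ℚ) (((z * w : ℤ)) : ℚ) := by
    refine hm4 (a := 1) (b := -a3) (c := a4) (d := z) one_ne_zero (by omega) h4.ne' hz ?_
      (s := 1) (Or.inl rfl) (by omega) (by omega)
    intro p hp
    have h40 : (a4 : ℚ_[p]) ≠ 0 := by exact_mod_cast h4.ne'
    by_cases hpS : p ∈ S
    · refine ⟨y p hp, hy0 p hp, ?_, ?_⟩
      · have := hy3 p hp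
        push_cast
        rw [one_mul]
        exact this
      · obtain ⟨r, hr⟩ := hzx p hpS hp
        have hx0' := hx0 p hp
        have hz0 : (z : ℚ_[p]) ≠ 0 := by exact_mod_cast hz
        have hr0 : r ≠ 0 := by
          rintro rfl
          exact (mul_ne_zero hz0 hx0') (by rw [hr]; ring)
        have hzr : (z : ℚ_[p]) = x p hp * (r / x p hp) ^ 2 := by
          field_simp
          linear_combination hr
        have e1 : (z : ℚ_[p]) * y p hp = x p hp * y p hp * (r / x p hp) ^ 2 := by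
          rw [hzr]
          field_simp
        rw [e1, splits_mul_sq' (div_ne_zero hr0 hx0')]
        exact hy4 p hp
    · have hp2 : p ≠ 2 := fun h => hpS (h ▸ hS2)
      have hpp : Prime (p : ℤ) := Nat.prime_iff_prime_int.1 hp.out
      have hp4 : ¬ (p : ℤ) ∣ a4 := fun h => hpS (hSd p hp.out (Dvd.dvd.mul_left h _))
      have hp3 : ¬ (p : ℤ) ∣ a3 := fun h =>
        hpS (hSd p hp.out (Dvd.dvd.mul_right (Dvd.dvd.mul_left h _) _))
      refine ⟨(a4 : ℚ_[p]), h40, ?_, splits_of_sq_left ⟨_, rfl⟩⟩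
      have e1 : ((1 : ℤ) : ℚ_[p]) * (a4 : ℚ_[p]) = ((a4 : ℤ) : ℚ_[p]) := by push_cast; ring
      have e2 : ((-a3 : ℤ) : ℚ_[p]) * (a4 : ℚ_[p]) = ((-a3 * a4 : ℤ) : ℚ_[p]) := by push_cast; ring
      rw [e1, e2]
      refine Pool.Agent.W335.BMX.odd2 p hp2 _ _ hp4 ?_
      intro h
      rcases hpp.dvd_or_dvd h with h | h
      · exact hp3 ((dvd_neg).1 h)
      · exact hp4 h
  obtain ⟨w, hw, -, hw1, hw2⟩ := r2
  have hzq : (z : ℚ) ≠ 0 := by exact_mod_cast hz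
  have hwq : (w : ℚ) ≠ 0 := by exact_mod_cast hw
  obtain ⟨u1, u2, hu⟩ := rep_of_splits (a := a1) (b := a2) (c := z) (by exact_mod_cast h1)
    (by exact_mod_cast h2) hzq (by push_cast at r1; exact r1)
  obtain ⟨v1, v2, hv⟩ := rep_of_splits (a := 1) (b := -a3) (c := w) one_ne_zero
    (by exact_mod_cast (neg_ne_zero.2 h3)) hwq (by push_cast at hw1; exact hw1)
  obtain ⟨v3, v4, hv'⟩ := rep_of_splits (a := a4) (b := z) (c := w) (by exact_mod_cast h4.ne')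
    hzq hwq (by push_cast at hw2; exact hw2)
  refine ⟨u1 * v4, u2 * v4, v2, v3, v1, ?_, ?_⟩
  · rintro ⟨-, -, h5, -, h7⟩
    rw [h5, h7] at hv
    apply hwq
    rw [← hv]
    ring
  · linear_combination v4 ^ 2 * hu - hv + hv'

/-- Meyer's theorem for the forms `a x^2 + b y^2 + c z^2 + d w^2 - t^2` with rational coefficients
and `d > 0`. -/
theorem meyer_rat' {a1 a2 a3 a4 : ℚ} (h1 : a1 ≠ 0) (h2 : a2 ≠ 0) (h3 : a3 ≠ 0) (h4 : 0 < a4) :
    ∃ r1 r2 r3 r4 t : ℚ, ¬ (r1 = 0 ∧ r2 = 0 ∧ r3 = 0 ∧ r4 = 0 ∧ t = 0) ∧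
      a1 * r1 ^ 2 + a2 * r2 ^ 2 + a3 * r3 ^ 2 + a4 * r4 ^ 2 = t ^ 2 := by
  have hd : ∀ r : ℚ, (r.den : ℚ) ≠ 0 := fun r => by exact_mod_cast r.den_ne_zero
  have hn : ∀ r : ℚ, (r.num : ℚ) = r * r.den := fun r => (Rat.mul_den_eq_num r).symm
  obtain ⟨r1, r2, r3, r4, t, hne, h⟩ := meyer_int (a1 := a1.num * a1.den) (a2 := a2.num * a2.den)
    (a3 := a3.num * a3.den) (a4 := a4.num * a4.den)
    (mul_ne_zero (Rat.num_ne_zero.2 h1) (by exact_mod_cast a1.den_ne_zero))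
    (mul_ne_zero (Rat.num_ne_zero.2 h2) (by exact_mod_cast a2.den_ne_zero))
    (mul_ne_zero (Rat.num_ne_zero.2 h3) (by exact_mod_cast a3.den_ne_zero))
    (mul_pos (Rat.num_pos.2 h4) (by exact_mod_cast a4.den_pos))
  refine ⟨a1.den * r1, a2.den * r2, a3.den * r3, a4.den * r4, t, ?_, ?_⟩
  · rintro ⟨e1, e2, e3, e4, e5⟩
    exact hne ⟨(mul_eq_zero.1 e1).resolve_left (hd _), (mul_eq_zero.1 e2).resolve_left (hd _),
      (mul_eq_zero.1 e3).resolve_left (hd _), (mul_eq_zero.1 e4).resolve_left (hd _), e5⟩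
  · push_cast at h
    rw [hn a1, hn a2, hn a3, hn a4] at h
    linear_combination h

/-- Meyer's theorem for diagonal forms -/
theorem meyer_diag (w : Fin 5 → ℚ) (j k : Fin 5) (hj : w j < 0) (hk : 0 < w k) :
    ∃ x : Fin 5 → ℚ, x ≠ 0 ∧ ∑ i, w i * (x i) ^ 2 = 0 := by
  by_cases h0 : ∃ i, w i = 0
  · obtain ⟨i, hi⟩ := h0
    refine ⟨Pi.single i 1, fun h => one_ne_zero (α := ℚ) ?_, ?_⟩
    · rw [← Pi.single_eq_same (M := fun _ => ℚ) i 1, h, Pi.zero_apply]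
    · refine Finset.sum_eq_zero fun l _ => ?_
      by_cases hl : l = i
      · rw [hl, hi, zero_mul]
      · rw [Pi.single_eq_of_ne hl]
        ring
  · push Not at h0
    have hjk : k ≠ j := fun h => by
      rw [h] at hk
      exact lt_asymm hj hk
    obtain ⟨σ, h4, h3⟩ : ∃ σ : Equiv.Perm (Fin 5), σ 4 = j ∧ σ 3 = k := by
      clear h0 hj hk w
      revert j k
      decide
    have hw4 : 0 < -w j := neg_pos.2 hj
    obtain ⟨r1, r2, r3, r4, t, hne, h⟩ := meyer_rat' (a1 := w (σ 0) / (-w j))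
      (a2 := w (σ 1) / (-w j)) (a3 := w (σ 2) / (-w j)) (a4 := w (σ 3) / (-w j))
      (div_ne_zero (h0 _) hw4.ne') (div_ne_zero (h0 _) hw4.ne') (div_ne_zero (h0 _) hw4.ne')
      (div_pos (by rw [h3]; exact hk) hw4)
    refine ⟨fun i => ![r1, r2, r3, r4, t] (σ.symm i), fun h5 => hne ?_, ?_⟩
    · have h6 : ∀ i, ![r1, r2, r3, r4, t] i = 0 := fun i => by
        have := congrFun h5 (σ i)
        simpa using this
      exact ⟨h6 0, h6 1, h6 2, h6 3, h6 4⟩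
    · rw [← Equiv.sum_comp σ]
      simp only [Equiv.symm_apply_apply]
      rw [Fin.sum_univ_five, h4]
      simp only [Matrix.cons_val]
      have hwj : w j ≠ 0 := hj.ne
      field_simp at h
      linarith

/-- **Meyer's theorem** -/
theorem meyer : Pool.Agent.Q28.KI.Meyer := by
  intro Q hpos hneg
  obtain ⟨w, ⟨e⟩⟩ := QuadraticForm.equivalent_weightedSumSquares Q
  obtain ⟨x, hx⟩ := hpos
  obtain ⟨y, hy⟩ := hneg
  have hev : ∀ z, Q z = ∑ i, w i * (e z i) ^ 2 := fun z => by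
    rw [← e.map_app, QuadraticMap.weightedSumSquares_apply]
    refine Finset.sum_congr rfl fun i _ => ?_
    rw [smul_eq_mul, pow_two]
  have hk : ∃ k, 0 < w k := by
    by_contra hcon
    push Not at hcon
    rw [hev] at hx
    exact absurd (Finset.sum_nonpos fun i _ => mul_nonpos_of_nonpos_of_nonneg (hcon i) (sq_nonneg _))
      (not_le.2 hx)
  have hj : ∃ j, w j < 0 := by
    by_contra hcon
    push Not at hcon
    rw [hev] at hy
    exact absurd (Finset.sum_nonneg fun i _ => mul_nonneg (hcon i) (sq_nonneg _)) (not_le.2 hy)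
  obtain ⟨k, hk⟩ := hk
  obtain ⟨j, hj⟩ := hj
  have hf : Module.finrank ℚ (Fin 5 → ℚ) = 5 := Module.finrank_fin_fun ℚ
  obtain ⟨v, hv0, hv⟩ := meyer_diag (fun i => w (Fin.cast hf.symm i)) (Fin.cast hf j)
    (Fin.cast hf k) (by simpa using hj) (by simpa using hk)
  refine ⟨e.symm fun i => v (Fin.cast hf i), fun h => hv0 ?_, ?_⟩
  · have h1 : (fun i => v (Fin.cast hf i)) = 0 := by
      rw [← e.apply_symm_apply (fun i => v (Fin.cast hf i)), h, map_zero]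
    funext i
    have := congrFun h1 (Fin.cast hf.symm i)
    simpa using this
  · rw [hev, e.apply_symm_apply]
    rw [← hv]
    exact (Equiv.sum_comp (finCongr hf.symm) fun i => w i * v (Fin.cast hf i) ^ 2).symm

end Pool.Agent.Q28.KS
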