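import Pool.Agent.Q28.KS.Rep
import Pool.Agent.Q28.KS.Meyer

/-!
# The Kuga-Satake correspondence of K3 surfaces with large Picard number
-/

set_option autoImplicit false

namespace Pool.Agent.Q28.KS

open Pool.Agent.Q28.KI Module Matrix

universe u

set_option linter.dupNamespace false

/-- Complex projective K3 surfaces. `KS X`: the Kuga-Satake correspondence of `X` is algebraic.
`Per X` is the set of the periods `x ↦ ∫_x ω` of the nonzero holomorphic 2-forms `ω` of `X`, as
functions on `H²(X, ℚ)` for the isometries of `H²(X, ℤ)` with the K3 lattice. -/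
structure K3s where
  Surf : Type u
  KS : Surf → Prop
  Per : Surf → Set (V →ₗ[ℚ] ℂ)

variable (T : K3s.{u})

/-- the classes `v i` are rational combinations of divisor classes of `X` (for some isometry of
`H²(X, ℤ)` with the K3 lattice) -/
def Divisors {T : K3s.{u}} (X : T.Surf) {r : ℕ} (v : Fin r → V) : Prop :=
  ∃ p ∈ T.Per X, ∀ i, p (v i) = 0

/-- the family `v` is orthogonal, with the self-intersection numbers `a i` -/
def IsOrthogonal {r : ℕ} (v : Fin r → V) (a : Fin r → ℚ) : Prop :=
  ∀ i j, B (v i) (v j) = if i = j then a i else 0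

/-- the rational divisor classes of `X` have rank at least `r` (Picard number at least `r`) -/
def PicardAtLeast {T : K3s.{u}} (X : T.Surf) (r : ℕ) : Prop :=
  ∃ p ∈ T.Per X, ∃ v : Fin r → V, LinearIndependent ℚ v ∧ ∀ i, p (v i) = 0

/-- The known facts. `marked`: there are periods. `ample`: the class of an ample divisor has period
zero and positive self-intersection, and the form is negative on the nonzero rational divisor
classes (the kernel of the period) orthogonal to it (Hodge index theorem). `isogeny`: if `p` is a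
period of `X` and `g` a rational isometry then there is a K3 surface `X'` with the period `p ∘ g⁻¹`
(surjectivity of the period map), and the Kuga-Satake correspondence of `X` is algebraic if and only
if that of `X'` is (the Hodge isometry `g` is algebraic by the theorem of Buskin and Huybrechts, and
induces an isogeny of the Kuga-Satake varieties compatible with the correspondences). `floccari`: if
`X` has 15 orthogonal rational divisor classes with self-intersection `-1` then its Kuga-Satake
correspondence is algebraic. By Witt's theorem (`U³ ⊕ E₈(-1)² ≅ U³ ⊕ ⟨-1⟩¹⁶` over the rational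
numbers) the condition means that the transcendental part of `H²(X, ℚ)` embeds in `U³ ⊕ ⟨-1⟩`; this
is `H²(K, ℚ)(1/2)` for the sixfolds `K` of generalized Kummer type, and `X` is isogenous to one of
the K3 surfaces `S_K` for which Floccari proved the conjecture. -/
structure K3s.Facts : Prop where
  marked : ∀ X, (T.Per X).Nonempty
  ample : ∀ X, ∀ p ∈ T.Per X, ∃ h : V, p h = 0 ∧ 0 < B h h ∧
    ∀ x : V, p x = 0 → B h x = 0 → x ≠ 0 → B x x < 0
  isogeny : ∀ X, ∀ p ∈ T.Per X, ∀ g : V ≃ₗ[ℚ] V, IsIsometry B g →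
    ∃ X', p ∘ₗ g.symm.toLinearMap ∈ T.Per X' ∧ (T.KS X ↔ T.KS X')
  floccari : ∀ (X : T.Surf) (v : Fin 15 → V), Divisors X v → IsOrthogonal v (fun _ => -1) → T.KS X

/-- A stronger form of `floccari`: the Kuga-Satake correspondence of `X` is algebraic if `X` has 15
orthogonal rational divisor classes with self-intersection numbers `-1` (14 times) and `-b`, where
`b = x² + y² ≠ 0`. By Witt's theorem (`⟨-1⟩² ≅ ⟨-b⟩²`) the condition means that the transcendental
part of `H²(X, ℚ)` embeds in `U³ ⊕ ⟨-b⟩`; then the Kuga-Satake variety is a power of an abelian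
fourfold of Weil type with discriminant 1 (Lombardo), to which the theorem of Markman applies. -/
def K3s.WeilType : Prop :=
  ∀ (X : T.Surf) (v : Fin 15 → V) (x y : ℚ), x ^ 2 + y ^ 2 ≠ 0 → Divisors X v →
    IsOrthogonal v (squares 14 x y) → T.KS X

variable {T}

theorem meyer' : MeyerStatement := fun Q => meyer Q

theorem good_ker (hT : T.Facts) {X : T.Surf} {p : V →ₗ[ℚ] ℂ} (hp : p ∈ T.Per X) :
    Good (LinearMap.ker p) where
  nondeg z hz h := by
    obtain ⟨h₀, hh, -, hodge⟩ := hT.ample X p hp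
    by_contra hz0
    have h1 := hodge z hz (by rw [B_symm]; exact h h₀ hh) hz0
    rw [h z hz] at h1
    exact lt_irrefl _ h1
  neg := by
    obtain ⟨h₀, hh, -, hodge⟩ := hT.ample X p hp
    exact ⟨h₀, fun z hz hz0 hB => hodge z hz hB hz0⟩

theorem finrank_ker {p : V →ₗ[ℚ] ℂ} {r : ℕ} {v : Fin r → V} (hv : LinearIndependent ℚ v)
    (h : ∀ i, p (v i) = 0) : r ≤ finrank ℚ (LinearMap.ker p) := by
  have h1 : LinearIndependent ℚ (fun i => (⟨v i, h i⟩ : LinearMap.ker p)) :=
    LinearIndependent.of_comp (LinearMap.ker p).subtype hv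
  have h2 := h1.fintype_card_le_finrank
  rwa [Fintype.card_fin] at h2

/-- moving divisor classes into a given position -/
theorem move (hT : T.Facts) (X : T.Surf) {p : V →ₗ[ℚ] ℂ} (hp : p ∈ T.Per X) {r : ℕ}
    (m v : Fin r → V) (hm : (Matrix.of fun i j => B (m i) (m j)).det ≠ 0)
    (hv : ∀ i, p (v i) = 0) (hB : ∀ i j, B (v i) (v j) = B (m i) (m j)) (s : ℕ)
    (hs : s ≤ finrank ℚ (LinearMap.ker p)) :
    ∃ X' : T.Surf, (T.KS X ↔ T.KS X') ∧ ∃ q ∈ T.Per X', (∀ i, q (m i) = 0) ∧
      ∃ w : Fin s → V, LinearIndependent ℚ w ∧ ∀ i, q (w i) = 0 := by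
  have hd : (Matrix.of fun i j => B (v i) (v j)).det ≠ 0 := by
    simp only [hB]
    exact hm
  obtain ⟨g, hg, hgv⟩ := witt B_symm v m hd fun i j => (hB i j).symm
  obtain ⟨X', hX', hKS⟩ := hT.isogeny X p hp g hg
  obtain ⟨w, hw⟩ := exists_linearIndependent_of_le_finrank hs
  refine ⟨X', hKS, _, hX', fun i => ?_, fun i => g (w i), ?_, fun i => ?_⟩
  · rw [LinearMap.comp_apply, LinearEquiv.coe_coe, ← hgv i, LinearEquiv.symm_apply_apply]
    exact hv i
  · have h1 : LinearIndependent ℚ (fun i => ((w i : LinearMap.ker p) : V)) :=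
      hw.map' (LinearMap.ker p).subtype (LinearMap.ker_eq_bot.2 Subtype.val_injective)
    exact h1.map' g.toLinearMap (LinearMap.ker_eq_bot.2 g.injective)
  · rw [LinearMap.comp_apply, LinearEquiv.coe_coe, LinearEquiv.symm_apply_apply]
    exact (w i).2

theorem det_orthogonal {r : ℕ} {m : Fin r → V} {a : Fin r → ℚ} (hm : IsOrthogonal m a)
    (ha : ∀ i, a i ≠ 0) : (Matrix.of fun i j => B (m i) (m j)).det ≠ 0 := by
  have h1 : (Matrix.of fun i j => B (m i) (m j)) = Matrix.diagonal a := by
    ext i j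
    rw [Matrix.of_apply, hm i j, Matrix.diagonal_apply]
  rw [h1, Matrix.det_diagonal]
  exact Finset.prod_ne_zero_iff.2 fun i _ => ha i

/-- **Picard number at least 18** -/
theorem ks_of_eighteen (hT : T.Facts) (X : T.Surf) (hX : PicardAtLeast X 18) : T.KS X := by
  obtain ⟨p, hp, v, hv, hpv⟩ := hX
  obtain ⟨w, hw, hB⟩ := Good.chain meyer' 15 _ (good_ker hT hp) (finrank_ker hv hpv) (fun _ => -1)
    fun _ => by norm_num
  exact hT.floccari X w ⟨p, hp, hw⟩ hB

/-- **Picard number at least 17** -/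
theorem ks_of_seventeen (hT : T.Facts) (hW : T.WeilType) (X : T.Surf)
    (hX : PicardAtLeast X 17) : T.KS X := by
  obtain ⟨p, hp, v, hv, hpv⟩ := hX
  obtain ⟨w, x, y, hxy, hw, hB⟩ := Good.chain_squares meyer' 14 _ (good_ker hT hp)
    (finrank_ker hv hpv)
  exact hW X w x y hxy ⟨p, hp, hw⟩ hB

/-- negative classes in a given position -/
theorem move_neg (hT : T.Facts) {n : ℕ} {m : Fin n → V} {a : Fin n → ℚ} (hm : IsOrthogonal m a)
    (ha : ∀ i, a i < 0) (X : T.Surf) (hX : PicardAtLeast X (n + 3)) :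
    ∃ X' : T.Surf, (T.KS X ↔ T.KS X') ∧ PicardAtLeast X' (n + 3) ∧ Divisors X' m := by
  obtain ⟨p, hp, v, hv, hpv⟩ := hX
  obtain ⟨w, hw, hB⟩ := Good.chain meyer' n _ (good_ker hT hp) (finrank_ker hv hpv) a ha
  obtain ⟨X', h1, q, hq, h2, u, hu, h3⟩ := move hT X hp m w (det_orthogonal hm fun i => (ha i).ne)
    hw (fun i j => by rw [hB, hm]) (n + 3) (finrank_ker hv hpv)
  exact ⟨X', h1, ⟨q, hq, u, hu, h3⟩, q, hq, h2⟩

/-- one positive class and negative classes in a given position -/
theorem move_pos (hT : T.Facts) {n : ℕ} {m : Fin (n + 1) → V} {a : Fin (n + 1) → ℚ}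
    (hm : IsOrthogonal m a) (ha0 : 0 < a 0) (ha : ∀ i, i ≠ 0 → a i < 0) (X : T.Surf)
    (hX : PicardAtLeast X (n + 4)) :
    ∃ X' : T.Surf, (T.KS X ↔ T.KS X') ∧ PicardAtLeast X' (n + 4) ∧ Divisors X' m := by
  obtain ⟨p, hp, v, hv, hpv⟩ := hX
  obtain ⟨h, hh, hpos, -⟩ := hT.ample X p hp
  obtain ⟨w, hw, hB⟩ := Good.chain_pos meyer' n (good_ker hT hp) (finrank_ker hv hpv) hh hpos a
    ha0 ha
  obtain ⟨X', h1, q, hq, h2, u, hu, h3⟩ := move hT X hp m w (det_orthogonal hm fun i => by
      by_cases hi : i = 0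
      · rw [hi]
        exact ha0.ne'
      · exact (ha i hi).ne)
    hw (fun i j => by rw [hB, hm]) (n + 4) (finrank_ker hv hpv)
  exact ⟨X', h1, ⟨q, hq, u, hu, h3⟩, q, hq, h2⟩

/-- all the surfaces with a positive class of a given square class: no condition on the Picard
number -/
theorem move_degree (hT : T.Facts) (X : T.Surf) : ∃ X' : T.Surf, (T.KS X ↔ T.KS X') ∧
    ∃ d : ℕ, Squarefree d ∧ ∃ p ∈ T.Per X', ∃ h : V, Primitive h ∧ p h = 0 ∧ B h h = 2 * d := by
  obtain ⟨p, hp⟩ := hT.marked X
  obtain ⟨h, hph, hpos, -⟩ := hT.ample X p hp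
  obtain ⟨d, hd, hd0, c, hc, hcd⟩ := exists_degree (D := {d : ℕ | Squarefree d})
    squarefree_classes hpos
  have hd' : (0 : ℚ) < d := by exact_mod_cast hd0
  obtain ⟨X', h1, q, hq, h2, -⟩ := move hT X hp ![deg d] ![c • h] (by
      rw [Matrix.det_fin_one, Matrix.of_apply, Matrix.cons_val_zero, B_deg]
      positivity) (fun i => by
      fin_cases i
      simp [hph]) (fun i j => by
      fin_cases i
      fin_cases j
      simp only [Fin.zero_eta, Matrix.cons_val_zero, map_smul, LinearMap.smul_apply, smul_eq_mul,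
        B_deg]
      rw [← hcd]
      ring) 0 (Nat.zero_le _)
  exact ⟨X', h1, d, hd, q, hq, deg d, primitive_deg d, h2 0, B_deg d⟩

end Pool.Agent.Q28.KS
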