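import Pool.Agent.Q28.KS.Main

/-!
# The Hodge conjecture for the powers of K3 surfaces of large Picard number
-/

set_option autoImplicit false

namespace Pool.Agent.Q28.KS

open Pool.Agent.Q28.KI Module

universe u

/-- Complex projective K3 surfaces. `HC X n`: all Hodge classes on the power `X^n`, in all degrees,
are algebraic. `Per X` is the set of the periods `x ↦ ∫_x ω` of the nonzero holomorphic 2-forms `ω`
of `X`, as functions on `H²(X, ℚ)` for the isometries of `H²(X, ℤ)` with the K3 lattice. -/
structure K3Powers where
  Surf : Type u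
  HC : Surf → ℕ → Prop
  Per : Surf → Set (V →ₗ[ℚ] ℂ)

variable (T : K3Powers.{u})

/-- The K3 surfaces with the property that the Hodge conjecture holds for all powers. -/
def K3Powers.toK3s : K3s.{u} where
  Surf := T.Surf
  KS X := ∀ n, T.HC X n
  Per := T.Per

/-- the rational divisor classes of `X` have rank at least `r` (Picard number at least `r`) -/
def K3Powers.PicardAtLeast {T : K3Powers.{u}} (X : T.Surf) (r : ℕ) : Prop :=
  ∃ p ∈ T.Per X, ∃ v : Fin r → V, LinearIndependent ℚ v ∧ ∀ i, p (v i) = 0

/-- The known facts. `marked`: there are periods. `ample`: the class of an ample divisor has period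
zero and positive self-intersection, and the form is negative on the nonzero rational divisor
classes (the kernel of the period) orthogonal to it (Hodge index theorem). `isogeny`: if `p` is a
period of `X` and `g` a rational isometry then there is a K3 surface `X'` with the period `p ∘ g⁻¹`
(surjectivity of the period map), and the Hodge conjecture holds for `X^n` if and only if it holds
for `X'^n` (the Hodge isometry `g` is algebraic by the theorem of Buskin and Huybrechts, and so the
motives of `X` and `X'` are isomorphic). `varesco`: if `X` has 15 orthogonal rational divisor classes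
with self-intersection `-1` then the Hodge conjecture holds for all powers of `X`. By Witt's theorem
(`U³ ⊕ E₈(-1)² ≅ U³ ⊕ ⟨-1⟩¹⁶` over the rational numbers) the condition means that the transcendental
part of `H²(X, ℚ)` embeds in `U³ ⊕ ⟨-1⟩`; this is `H²(K, ℚ)(1/2)` for the sixfolds `K` of generalized
Kummer type, `X` is isogenous to one of the K3 surfaces `S_K` of Floccari, which form families of
general Picard number 16 with algebraic Kuga-Satake correspondence, and the fact is Varesco's theorem
on the members of such families. -/
structure K3Powers.Facts : Prop where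
  marked : ∀ X, (T.Per X).Nonempty
  ample : ∀ X, ∀ p ∈ T.Per X, ∃ h : V, p h = 0 ∧ 0 < B h h ∧
    ∀ x : V, p x = 0 → B h x = 0 → x ≠ 0 → B x x < 0
  isogeny : ∀ X, ∀ p ∈ T.Per X, ∀ g : V ≃ₗ[ℚ] V, IsIsometry B g →
    ∃ X', p ∘ₗ g.symm.toLinearMap ∈ T.Per X' ∧ ∀ n, T.HC X n ↔ T.HC X' n
  varesco : ∀ (X : T.Surf) (v : Fin 15 → V), (∃ p ∈ T.Per X, ∀ i, p (v i) = 0) →
    (∀ i j, B (v i) (v j) = if i = j then -1 else 0) → ∀ n, T.HC X n

/-- A stronger form of `varesco`: the Hodge conjecture holds for all powers of `X` if `X` has 15
orthogonal rational divisor classes with self-intersection numbers `-1` (14 times) and `-b`, where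
`b = x² + y² ≠ 0`. By Witt's theorem (`⟨-1⟩² ≅ ⟨-b⟩²`) the condition means that the transcendental
part of `H²(X, ℚ)` embeds in `U³ ⊕ ⟨-b⟩`; then the Kuga-Satake variety is a power of an abelian
fourfold of Weil type with discriminant 1 (Lombardo), to which the theorem of Markman applies. -/
def K3Powers.WeilType : Prop :=
  ∀ (X : T.Surf) (v : Fin 15 → V) (x y : ℚ), x ^ 2 + y ^ 2 ≠ 0 →
    (∃ p ∈ T.Per X, ∀ i, p (v i) = 0) →
    (∀ i j, B (v i) (v j) = if i = j then squares 14 x y i else 0) → ∀ n, T.HC X n

variable {T}

theorem K3Powers.Facts.toK3s (hT : T.Facts) : T.toK3s.Facts where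
  marked := hT.marked
  ample := hT.ample
  isogeny X p hp g hg := by
    obtain ⟨X', h1, h2⟩ := hT.isogeny X p hp g hg
    exact ⟨X', h1, forall_congr' h2⟩
  floccari := hT.varesco

/-- **Picard number at least 18** -/
theorem powers_of_eighteen (hT : T.Facts) (X : T.Surf) (hX : K3Powers.PicardAtLeast X 18)
    (n : ℕ) : T.HC X n :=
  ks_of_eighteen hT.toK3s X hX n

/-- **Picard number at least 17** -/
theorem powers_of_seventeen (hT : T.Facts) (hW : T.WeilType) (X : T.Surf)
    (hX : K3Powers.PicardAtLeast X 17) (n : ℕ) : T.HC X n :=
  ks_of_seventeen hT.toK3s hW X hX n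

end Pool.Agent.Q28.KS
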