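import Pool.Agent.Q28.KI.Lattice
import Mathlib

/-!
# Orthogonal families of divisor classes

Spaces of rational divisor classes of large dimension contain orthogonal families with prescribed
self-intersection numbers, by Meyer's theorem.
-/

set_option autoImplicit false

namespace Pool.Agent.Q28.KS

open Pool.Agent.Q28.KI Module

/-- Meyer's theorem: an indefinite rational quadratic form in five variables has a nontrivial
zero. -/
def MeyerStatement : Prop :=
  ∀ Q : QuadraticForm ℚ (Fin 5 → ℚ), (∃ x, 0 < Q x) → (∃ x, Q x < 0) → ∃ x, x ≠ 0 ∧ Q x = 0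

/-- the form is nondegenerate on `N`, and negative on the part of `N` orthogonal to one class -/
structure Good (N : Submodule ℚ V) : Prop where
  nondeg : ∀ z ∈ N, (∀ u ∈ N, B z u = 0) → z = 0
  neg : ∃ h : V, ∀ z ∈ N, z ≠ 0 → B h z = 0 → B z z < 0

theorem Good.exists_neg {N : Submodule ℚ V} (hN : Good N) {n : ℕ} (hn : 2 ≤ n)
    {L : (Fin n → ℚ) →ₗ[ℚ] V} (hL : Function.Injective L) (hLN : ∀ x, L x ∈ N) :
    ∃ x, B (L x) (L x) < 0 := by
  obtain ⟨h, hh⟩ := hN.neg
  have h1 : LinearMap.ker ((B h) ∘ₗ L) ≠ ⊥ := by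
    intro h2
    have h3 := LinearMap.finrank_le_finrank_of_injective (LinearMap.ker_eq_bot.1 h2)
    rw [Module.finrank_fin_fun, Module.finrank_self] at h3
    omega
  obtain ⟨y, hy, hy0⟩ := (Submodule.ne_bot_iff _).1 h1
  exact ⟨y, hh _ (hLN y) (fun h2 => hy0 (hL (by rw [h2, map_zero]))) hy⟩

/-- isotropic vectors give all values -/
theorem Good.of_isotropic {N : Submodule ℚ V} (hN : Good N) {z : V} (hz : z ∈ N) (hz0 : z ≠ 0)
    (hzz : B z z = 0) (a : ℚ) : ∃ x ∈ N, B x x = a := by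
  obtain ⟨u, hu, hzu⟩ : ∃ u ∈ N, B z u ≠ 0 := by
    by_contra hcon
    push Not at hcon
    exact hz0 (hN.nondeg z hz hcon)
  refine ⟨u + ((a - B u u) / (2 * B z u)) • z, N.add_mem hu (N.smul_mem _ hz), ?_⟩
  have h3 : B u z = B z u := B_symm _ _
  simp only [map_add, map_smul, LinearMap.add_apply, LinearMap.smul_apply, smul_eq_mul, h3, hzz]
  field_simp
  ring

/-- a value which makes the form in five variables indefinite is represented -/
theorem Good.represent (hM : MeyerStatement) {N : Submodule ℚ V} (hN : Good N)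
    {L : (Fin 4 → ℚ) →ₗ[ℚ] V} (hL : Function.Injective L) (hLN : ∀ x, L x ∈ N) {a : ℚ}
    (ha : a < 0 ∨ 0 < a ∧ ∃ x, 0 < B (L x) (L x)) : ∃ x ∈ N, B x x = a := by
  obtain ⟨y, hy⟩ := hN.exists_neg (by norm_num) hL hLN
  set L' : (Fin 5 → ℚ) →ₗ[ℚ] V := L ∘ₗ LinearMap.funLeft ℚ ℚ (Fin.castSucc : Fin 4 → Fin 5)
    with hL'
  set Q : QuadraticForm ℚ (Fin 5 → ℚ) := (LinearMap.BilinMap.toQuadraticMap B).comp L' -
    a • (QuadraticMap.sq (R := ℚ)).comp (LinearMap.proj (Fin.last 4)) with hQ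
  have hQx : ∀ x, Q x = B (L' x) (L' x) - a * (x (Fin.last 4) * x (Fin.last 4)) := fun x => by
    rw [hQ, _root_.sub_apply, _root_.smul_apply, QuadraticMap.comp_apply,
      QuadraticMap.comp_apply, LinearMap.BilinMap.toQuadraticMap_apply, QuadraticMap.sq_apply,
      smul_eq_mul]
    rfl
  have hsn : ∀ (x : Fin 4 → ℚ) (t : ℚ), L' (Fin.snoc x t) = L x := fun x t => by
    rw [hL', LinearMap.comp_apply]
    congr 1
    funext i
    rw [LinearMap.funLeft_apply, Fin.snoc_castSucc]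
  have hpos : ∃ x, 0 < Q x := by
    rcases ha with ha | ⟨ha, x, hx⟩
    · refine ⟨Fin.snoc 0 1, ?_⟩
      rw [hQx, hsn, Fin.snoc_last, map_zero, map_zero]
      simpa using ha
    · refine ⟨Fin.snoc x 0, ?_⟩
      rw [hQx, hsn, Fin.snoc_last]
      simpa using hx
  have hneg : ∃ x, Q x < 0 := by
    refine ⟨Fin.snoc y 0, ?_⟩
    rw [hQx, hsn, Fin.snoc_last]
    simpa using hy
  obtain ⟨x, hx0, hx⟩ := hM Q hpos hneg
  rw [hQx] at hx
  set t := x (Fin.last 4) with ht
  have hLx : L' x = L (fun i : Fin 4 => x i.castSucc) := rfl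
  by_cases ht0 : t = 0
  · refine hN.of_isotropic (z := L' x) (hLN _) (fun h1 => ?_) (by rw [ht0] at hx; linarith) a
    refine hx0 (funext fun i => ?_)
    refine Fin.lastCases ?_ (fun i => ?_) i
    · exact ht0
    · have h2 : (fun i : Fin 4 => x i.castSucc) = 0 := hL (by rw [← hLx, h1, map_zero])
      exact congrFun h2 i
  · refine ⟨t⁻¹ • L' x, N.smul_mem _ (hLN _), ?_⟩
    simp only [map_smul, LinearMap.smul_apply, smul_eq_mul]
    have h4 : B (L' x) (L' x) = a * (t * t) := by linarith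
    rw [h4]
    field_simp

/-- independent vectors of `N` -/
theorem exists_inj {N : Submodule ℚ V} {n : ℕ} (hr : n ≤ finrank ℚ N) :
    ∃ L : (Fin n → ℚ) →ₗ[ℚ] V, Function.Injective L ∧ ∀ x, L x ∈ N := by
  obtain ⟨v, hv⟩ := exists_linearIndependent_of_le_finrank hr
  refine ⟨N.subtype ∘ₗ Fintype.linearCombination ℚ v, ?_, fun x => (Fintype.linearCombination ℚ v x).2⟩
  rw [LinearMap.coe_comp]
  refine (Subtype.val_injective).comp ?_
  rw [← LinearMap.ker_eq_bot]
  exact (LinearMap.ker_eq_bot').2 fun x hx => funext (Fintype.linearIndependent_iff.1 hv x hx)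

/-- independent vectors of `N` whose span contains a given vector -/
theorem exists_inj_through {N : Submodule ℚ V} {n : ℕ} (hr : n + 1 ≤ finrank ℚ N) {h : V}
    (hh : h ∈ N) : ∃ L : (Fin (n + 1) → ℚ) →ₗ[ℚ] V, Function.Injective L ∧ (∀ x, L x ∈ N) ∧
      ∃ x, L x = h := by
  obtain ⟨v, hv⟩ := exists_linearIndependent_of_le_finrank hr
  obtain ⟨w, hw, a, ha⟩ : ∃ w : Fin (n + 1) → N, LinearIndependent ℚ w ∧
      ∃ a : Fin (n + 1) → ℚ, Fintype.linearCombination ℚ w a = ⟨h, hh⟩ := by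
    by_cases h1 : (⟨h, hh⟩ : N) ∈ Submodule.span ℚ (Set.range v)
    · refine ⟨v, hv, ?_⟩
      rw [← Fintype.range_linearCombination] at h1
      exact h1
    · refine ⟨Fin.cons ⟨h, hh⟩ fun i => v i.castSucc, ?_, Pi.single 0 1, ?_⟩
      · refine linearIndependent_finCons.2 ⟨hv.comp _ (Fin.castSucc_injective n), fun h2 => h1 ?_⟩
        refine Submodule.span_mono ?_ h2
        rintro _ ⟨i, rfl⟩
        exact ⟨i.castSucc, rfl⟩
      · rw [Fintype.linearCombination_apply_single, one_smul, Fin.cons_zero]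
  refine ⟨N.subtype ∘ₗ Fintype.linearCombination ℚ w, ?_,
    fun x => (Fintype.linearCombination ℚ w x).2, a, ?_⟩
  · rw [LinearMap.coe_comp]
    refine (Subtype.val_injective).comp ?_
    rw [← LinearMap.ker_eq_bot]
    exact (LinearMap.ker_eq_bot').2 fun x hx => funext (Fintype.linearIndependent_iff.1 hw x hx)
  · rw [LinearMap.comp_apply, ha]
    rfl

/-- the part of `N` orthogonal to `v` -/
noncomputable def orth (N : Submodule ℚ V) (v : V) : Submodule ℚ V :=
  (LinearMap.ker ((B v) ∘ₗ N.subtype)).map N.subtype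

theorem mem_orth {N : Submodule ℚ V} {v x : V} : x ∈ orth N v ↔ x ∈ N ∧ B v x = 0 := by
  constructor
  · rintro ⟨y, hy, rfl⟩
    exact ⟨y.2, hy⟩
  · rintro ⟨hx, hvx⟩
    exact ⟨⟨x, hx⟩, hvx, rfl⟩

theorem finrank_orth (N : Submodule ℚ V) (v : V) : finrank ℚ N ≤ finrank ℚ (orth N v) + 1 := by
  have h1 := LinearMap.finrank_range_add_finrank_ker ((B v) ∘ₗ N.subtype)
  have h2 : finrank ℚ (LinearMap.range ((B v) ∘ₗ N.subtype)) ≤ 1 := by
    refine (Submodule.finrank_le _).trans ?_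
    rw [Module.finrank_self]
  have h3 : finrank ℚ (orth N v) = finrank ℚ (LinearMap.ker ((B v) ∘ₗ N.subtype)) :=
    Submodule.finrank_map_subtype_eq N _
  omega

theorem Good.orth {N : Submodule ℚ V} (hN : Good N) {v : V} (hv : v ∈ N) (hvv : B v v ≠ 0) :
    Good (orth N v) where
  nondeg z hz h := by
    obtain ⟨hzN, hvz⟩ := mem_orth.1 hz
    refine hN.nondeg z hzN fun u hu => ?_
    have h1 := h (u - (B v u / B v v) • v) (mem_orth.2 ⟨N.sub_mem hu (N.smul_mem _ hv), by
      rw [map_sub, map_smul, smul_eq_mul, div_mul_cancel₀ _ hvv, sub_self]⟩)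
    rw [map_sub, map_smul, B_symm z v, hvz, smul_zero, sub_zero] at h1
    exact h1
  neg := by
    obtain ⟨h, hh⟩ := hN.neg
    exact ⟨h, fun z hz => hh z (mem_orth.1 hz).1⟩

/-- orthogonal families with given negative self-intersection numbers -/
theorem Good.chain (hM : MeyerStatement) (n : ℕ) : ∀ (N : Submodule ℚ V), Good N →
    n + 3 ≤ finrank ℚ N → ∀ a : Fin n → ℚ, (∀ i, a i < 0) →
      ∃ v : Fin n → V, (∀ i, v i ∈ N) ∧ ∀ i j, B (v i) (v j) = if i = j then a i else 0 := by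
  induction n with
  | zero => exact fun N _ _ a _ => ⟨fun i => i.elim0, fun i => i.elim0, fun i => i.elim0⟩
  | succ n ih =>
    intro N hN hr a ha
    obtain ⟨L, hL, hLN⟩ := exists_inj (N := N) (n := 4) (by omega)
    obtain ⟨v₀, hv₀, h0⟩ := hN.represent hM hL hLN (a := a 0) (Or.inl (ha 0))
    have hne : B v₀ v₀ ≠ 0 := by rw [h0]; exact (ha 0).ne
    obtain ⟨v, hv, hB⟩ := ih (KS.orth N v₀) (hN.orth hv₀ hne)
      (by have := finrank_orth N v₀; omega) (fun i => a i.succ) fun i => ha _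
    refine ⟨Fin.cons v₀ v, fun i => ?_, fun i j => ?_⟩
    · refine Fin.cases hv₀ (fun i => ?_) i
      exact (mem_orth.1 (hv i)).1
    · refine Fin.cases ?_ (fun i => ?_) i <;> refine Fin.cases ?_ (fun j => ?_) j
      · simpa using h0
      · rw [Fin.cons_zero, Fin.cons_succ, if_neg (Fin.succ_ne_zero j).symm]
        exact (mem_orth.1 (hv j)).2
      · rw [Fin.cons_zero, Fin.cons_succ, if_neg (Fin.succ_ne_zero i), B_symm]
        exact (mem_orth.1 (hv i)).2
      · rw [Fin.cons_succ, Fin.cons_succ, hB]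
        simp only [Fin.succ_inj]

/-- orthogonal families with given self-intersection numbers, the first positive, the others
negative -/
theorem Good.chain_pos (hM : MeyerStatement) (n : ℕ) {N : Submodule ℚ V} (hN : Good N)
    (hr : n + 4 ≤ finrank ℚ N) {h : V} (hh : h ∈ N) (hpos : 0 < B h h) (a : Fin (n + 1) → ℚ)
    (ha0 : 0 < a 0) (ha : ∀ i, i ≠ 0 → a i < 0) :
    ∃ v : Fin (n + 1) → V, (∀ i, v i ∈ N) ∧ ∀ i j, B (v i) (v j) = if i = j then a i else 0 := by
  obtain ⟨L, hL, hLN, x, hx⟩ := exists_inj_through (N := N) (n := 3) (by omega) hh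
  obtain ⟨v₀, hv₀, h0⟩ := hN.represent hM hL hLN (a := a 0) (Or.inr ⟨ha0, x, by rw [hx]; exact hpos⟩)
  have hne : B v₀ v₀ ≠ 0 := by rw [h0]; exact ha0.ne'
  obtain ⟨v, hv, hB⟩ := Good.chain hM n (KS.orth N v₀) (hN.orth hv₀ hne)
    (by have := finrank_orth N v₀; omega) (fun i => a i.succ) fun i => ha _ (Fin.succ_ne_zero i)
  refine ⟨Fin.cons v₀ v, fun i => ?_, fun i j => ?_⟩
  · refine Fin.cases hv₀ (fun i => ?_) i
    exact (mem_orth.1 (hv i)).1
  · refine Fin.cases ?_ (fun i => ?_) i <;> refine Fin.cases ?_ (fun j => ?_) j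
    · simpa using h0
    · rw [Fin.cons_zero, Fin.cons_succ, if_neg (Fin.succ_ne_zero j).symm]
      exact (mem_orth.1 (hv j)).2
    · rw [Fin.cons_zero, Fin.cons_succ, if_neg (Fin.succ_ne_zero i), B_symm]
      exact (mem_orth.1 (hv i)).2
    · rw [Fin.cons_succ, Fin.cons_succ, hB]
      simp only [Fin.succ_inj]

/-- a class whose self-intersection number is minus a sum of two squares -/
theorem Good.exists_two_squares (hM : MeyerStatement) {N : Submodule ℚ V} (hN : Good N)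
    (hr : 3 ≤ finrank ℚ N) : ∃ v ∈ N, ∃ x y : ℚ, x ^ 2 + y ^ 2 ≠ 0 ∧ B v v = -(x ^ 2 + y ^ 2) := by
  obtain ⟨L, hL, hLN⟩ := exists_inj (N := N) (n := 3) hr
  obtain ⟨y, hy⟩ := hN.exists_neg (by norm_num) hL hLN
  set r : (Fin 5 → ℚ) →ₗ[ℚ] (Fin 3 → ℚ) := LinearMap.funLeft ℚ ℚ (Fin.castAdd 2 : Fin 3 → Fin 5)
    with hr'
  set Q : QuadraticForm ℚ (Fin 5 → ℚ) := (LinearMap.BilinMap.toQuadraticMap B).comp (L ∘ₗ r) +
    ((QuadraticMap.sq (R := ℚ)).comp (LinearMap.proj (3 : Fin 5)) +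
      (QuadraticMap.sq (R := ℚ)).comp (LinearMap.proj (4 : Fin 5))) with hQ
  have hQx : ∀ x, Q x = B (L (r x)) (L (r x)) + (x 3 ^ 2 + x 4 ^ 2) := fun x => by
    rw [hQ, _root_.add_apply, _root_.add_apply, QuadraticMap.comp_apply, QuadraticMap.comp_apply,
      QuadraticMap.comp_apply, LinearMap.BilinMap.toQuadraticMap_apply, QuadraticMap.sq_apply,
      QuadraticMap.sq_apply]
    simp only [LinearMap.comp_apply, LinearMap.proj_apply]
    ring
  have hap : ∀ (x : Fin 3 → ℚ) (t : Fin 2 → ℚ), r (Fin.append x t) = x := fun x t => by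
    funext i
    rw [hr', LinearMap.funLeft_apply, Fin.append_left]
  have h3 : ∀ (x : Fin 3 → ℚ) (t : Fin 2 → ℚ), Fin.append x t 3 = t 0 := fun x t =>
    Fin.append_right x t 0
  have h4 : ∀ (x : Fin 3 → ℚ) (t : Fin 2 → ℚ), Fin.append x t 4 = t 1 := fun x t =>
    Fin.append_right x t 1
  obtain ⟨x, hx0, hx⟩ := hM Q ⟨Fin.append 0 ![1, 0], by
      rw [hQx, hap, h3, h4]
      simp⟩ ⟨Fin.append y ![0, 0], by
      rw [hQx, hap, h3, h4]
      simpa using hy⟩
  rw [hQx] at hx
  by_cases h0 : x 3 ^ 2 + x 4 ^ 2 = 0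
  · have hx3 : x 3 = 0 := by nlinarith [sq_nonneg (x 3), sq_nonneg (x 4)]
    have hx4 : x 4 = 0 := by nlinarith [sq_nonneg (x 3), sq_nonneg (x 4)]
    obtain ⟨v, hv, hvv⟩ := hN.of_isotropic (z := L (r x)) (hLN _) (fun h1 => by
        have h2 : r x = 0 := hL (by rw [h1, map_zero])
        refine hx0 (funext fun i => ?_)
        fin_cases i
        · exact congrFun h2 0
        · exact congrFun h2 1
        · exact congrFun h2 2
        · exact hx3
        · exact hx4) (by rw [h0] at hx; linarith) (-1)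
    exact ⟨v, hv, 1, 0, by norm_num, by rw [hvv]; norm_num⟩
  · exact ⟨L (r x), hLN _, x 3, x 4, h0, by linarith⟩

/-- `n` times `-1`, and minus a sum of two squares -/
def squares (n : ℕ) (x y : ℚ) (i : Fin (n + 1)) : ℚ :=
  if i = Fin.last n then -(x ^ 2 + y ^ 2) else -1

/-- orthogonal families with self-intersection numbers `-1`, and the last one minus a sum of two
squares -/
theorem Good.chain_squares (hM : MeyerStatement) (n : ℕ) : ∀ (N : Submodule ℚ V), Good N →
    n + 3 ≤ finrank ℚ N → ∃ (v : Fin (n + 1) → V) (x y : ℚ), x ^ 2 + y ^ 2 ≠ 0 ∧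
      (∀ i, v i ∈ N) ∧ ∀ i j, B (v i) (v j) = if i = j then squares n x y i else 0 := by
  induction n with
  | zero =>
    intro N hN hr
    obtain ⟨v, hv, x, y, h0, h⟩ := hN.exists_two_squares hM hr
    refine ⟨fun _ => v, x, y, h0, fun _ => hv, fun i j => ?_⟩
    have hi : i = Fin.last 0 := Fin.ext (by have := i.2; simp only [Fin.val_last]; omega)
    have hj : j = Fin.last 0 := Fin.ext (by have := j.2; simp only [Fin.val_last]; omega)
    rw [hi, hj, if_pos rfl, squares, if_pos rfl, h]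
  | succ n ih =>
    intro N hN hr
    obtain ⟨L, hL, hLN⟩ := exists_inj (N := N) (n := 4) (by omega)
    obtain ⟨v₀, hv₀, h0⟩ := hN.represent hM hL hLN (a := -1) (Or.inl (by norm_num))
    have hne : B v₀ v₀ ≠ 0 := by rw [h0]; norm_num
    obtain ⟨v, x, y, hxy, hv, hB⟩ := ih (KS.orth N v₀) (hN.orth hv₀ hne)
      (by have := finrank_orth N v₀; omega)
    refine ⟨Fin.cons v₀ v, x, y, hxy, fun i => ?_, fun i j => ?_⟩
    · refine Fin.cases hv₀ (fun i => ?_) i
      exact (mem_orth.1 (hv i)).1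
    · refine Fin.cases ?_ (fun i => ?_) i <;> refine Fin.cases ?_ (fun j => ?_) j
      · rw [Fin.cons_zero, if_pos rfl, squares, if_neg (Fin.last_pos.ne), h0]
      · rw [Fin.cons_zero, Fin.cons_succ, if_neg (Fin.succ_ne_zero j).symm]
        exact (mem_orth.1 (hv j)).2
      · rw [Fin.cons_zero, Fin.cons_succ, if_neg (Fin.succ_ne_zero i), B_symm]
        exact (mem_orth.1 (hv i)).2
      · rw [Fin.cons_succ, Fin.cons_succ, hB]
        simp only [Fin.succ_inj, squares, ← Fin.succ_last]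

end Pool.Agent.Q28.KS
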