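import Pool.Agent.Q28.KS.Powers

/-!
# The Tate conjecture for the powers of K3 surfaces of large Picard number
-/

set_option autoImplicit false

namespace Pool.Agent.Q28.KS

open Pool.Agent.Q28.KI Module

universe u v

/-- K3 surfaces over algebraic closures of fields finitely generated over the rational numbers.
`TC Y n l`: all `l`-adic Tate classes on the power `Y^n`, in all degrees, are algebraic.
`Conj Y`: the complex K3 surfaces obtained from `Y` by the embeddings of the ground field in the
complex numbers. -/
structure ArithmeticK3 (T : K3Powers.{u}) where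
  Surf : Type v
  TC : Surf → ℕ → ℕ → Prop
  Conj : Surf → Set T.Surf

/-- The known facts: there are embeddings in the complex numbers, and by the Mumford-Tate conjecture
for the second cohomology of K3 surfaces (Tankeev, André) the `l`-adic Tate classes on the powers of
`Y` are the combinations of the Hodge classes; hence they are algebraic if the Hodge conjecture holds
for the powers of one complex surface `X` obtained from `Y`. -/
structure ArithmeticK3.Facts {T : K3Powers.{u}} (A : ArithmeticK3.{u, v} T) : Prop where
  embedding : ∀ Y, (A.Conj Y).Nonempty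
  mumfordTate : ∀ (Y : A.Surf), ∀ X ∈ A.Conj Y, ∀ (n l : ℕ), l.Prime → T.HC X n → A.TC Y n l

/-- the Picard number of `Y` is at least `r` (for one complex surface obtained from `Y`) -/
def ArithmeticK3.PicardAtLeast {T : K3Powers.{u}} (A : ArithmeticK3.{u, v} T) (Y : A.Surf)
    (r : ℕ) : Prop :=
  ∃ X ∈ A.Conj Y, K3Powers.PicardAtLeast X r

/-- **Picard number at least 18** -/
theorem tate_of_eighteen {T : K3Powers.{u}} (hT : T.Facts) (A : ArithmeticK3.{u, v} T)
    (hA : A.Facts) (Y : A.Surf) (hY : A.PicardAtLeast Y 18) (n l : ℕ) (hl : l.Prime) :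
    A.TC Y n l := by
  obtain ⟨X, hX, h⟩ := hY
  exact hA.mumfordTate Y X hX n l hl (powers_of_eighteen hT X h n)

/-- **Picard number at least 17** -/
theorem tate_of_seventeen {T : K3Powers.{u}} (hT : T.Facts) (hW : T.WeilType)
    (A : ArithmeticK3.{u, v} T) (hA : A.Facts) (Y : A.Surf) (hY : A.PicardAtLeast Y 17) (n l : ℕ)
    (hl : l.Prime) : A.TC Y n l := by
  obtain ⟨X, hX, h⟩ := hY
  exact hA.mumfordTate Y X hX n l hl (powers_of_seventeen hT hW X h n)

end Pool.Agent.Q28.KS
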