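import Pool.Agent.Q28.KI.Main
import Pool.Agent.Q28.KS.Rep
import Pool.Agent.Q28.KS.Meyer

/-!
# Prescribed divisor classes

Zero-cycles on K3 surfaces of large Picard number: isogenous surfaces with prescribed orthogonal
divisor classes.
-/

set_option autoImplicit false

namespace Pool.Agent.Q28.KS

open Pool.Agent.Q28.KI Module Matrix

/-- orthogonal families with given nonzero self-intersection numbers, at most one of them
positive -/
theorem Good.chain_general (hM : MeyerStatement) {r : ℕ} {N : Submodule ℚ V} (hN : Good N)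
    (hr : r + 3 ≤ finrank ℚ N) {h : V} (hh : h ∈ N) (hpos : 0 < B h h) (a : Fin r → ℚ)
    (ha : ∀ i, a i ≠ 0) (ha' : ∀ i j, 0 < a i → 0 < a j → i = j) :
    ∃ v : Fin r → V, (∀ i, v i ∈ N) ∧ ∀ i j, B (v i) (v j) = if i = j then a i else 0 := by
  by_cases hp : ∃ i, 0 < a i
  · obtain ⟨i₀, hi⟩ := hp
    rcases r with - | n
    · exact i₀.elim0
    · set σ := Equiv.swap 0 i₀ with hσ
      obtain ⟨v, hv, hB⟩ := Good.chain_pos hM n hN (by omega) hh hpos (fun i => a (σ i))
        (by rw [hσ, Equiv.swap_apply_left]; exact hi) (fun i hi0 => by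
          rcases lt_or_gt_of_ne (ha (σ i)) with h1 | h1
          · exact h1
          · exfalso
            apply hi0
            apply σ.injective
            rw [ha' _ _ h1 hi, hσ, Equiv.swap_apply_left])
      refine ⟨fun i => v (σ i), fun i => hv _, fun i j => ?_⟩
      rw [hB, hσ, Equiv.swap_apply_self]
      simp only [EmbeddingLike.apply_eq_iff_eq]
  · push Not at hp
    exact Good.chain hM r N hN hr a fun i => lt_of_le_of_ne (hp i) (ha i)

variable {T : Surfaces}

theorem good_ker₀ {T : Surfaces} (hT : T.Facts) {X : T.Surf} {p : V →ₗ[ℚ] ℂ} (hp : p ∈ T.Per X) :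
    Good (LinearMap.ker p) where
  nondeg z hz h := by
    obtain ⟨h₀, hh, -, hodge⟩ := hT.ample X p hp
    by_contra hz0
    have h1 := hodge z hz (by rw [B_symm]; exact h h₀ hh) hz0
    rw [h z hz] at h1
    exact lt_irrefl _ h1
  neg := by
    obtain ⟨h₀, hh, -, hodge⟩ := hT.ample X p hp
    exact ⟨h₀, fun z hz hz0 hB => hodge z hz hB hz0⟩

/-- the family `m` is orthogonal, the self-intersection numbers are not zero, and at most one of them
is positive -/
structure IsAdmissible {r : ℕ} (m : Fin r → V) : Prop where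
  orthogonal : ∀ i j, i ≠ j → B (m i) (m j) = 0
  ne_zero : ∀ i, B (m i) (m i) ≠ 0
  one_positive : ∀ i j, 0 < B (m i) (m i) → 0 < B (m j) (m j) → i = j

/-- prescribed divisor classes -/
theorem prescribe {T : Surfaces} (hT : T.Facts) {r : ℕ} {m : Fin r → V} (hm : IsAdmissible m)
    (X : T.Surf) (hX : RankAtLeast X (r + 3)) :
    ∃ X' : T.Surf, Same X X' ∧ ∃ p ∈ T.Per X', (∀ i, p (m i) = 0) ∧
      ∃ w : Fin (r + 3) → V, LinearIndependent ℚ w ∧ ∀ i, p (w i) = 0 := by
  obtain ⟨p, hp, v, hv, hpv⟩ := hX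
  obtain ⟨h, hh, hpos, -⟩ := hT.ample X p hp
  have hr : r + 3 ≤ finrank ℚ (LinearMap.ker p) := by
    have h1 : LinearIndependent ℚ (fun i => (⟨v i, hpv i⟩ : LinearMap.ker p)) :=
      LinearIndependent.of_comp (LinearMap.ker p).subtype hv
    have h2 := h1.fintype_card_le_finrank
    rwa [Fintype.card_fin] at h2
  obtain ⟨w, hw, hB⟩ := Good.chain_general (fun Q => meyer Q) (good_ker₀ hT hp) hr hh hpos
    (fun i => B (m i) (m i)) hm.ne_zero hm.one_positive
  have hBm : ∀ i j, B (w i) (w j) = B (m i) (m j) := fun i j => by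
    rw [hB]
    by_cases hij : i = j
    · rw [if_pos hij, hij]
    · rw [if_neg hij, hm.orthogonal i j hij]
  have hd : (Matrix.of fun i j => B (w i) (w j)).det ≠ 0 := by
    have h1 : (Matrix.of fun i j => B (w i) (w j)) = Matrix.diagonal fun i => B (m i) (m i) := by
      ext i j
      rw [Matrix.of_apply, hB, Matrix.diagonal_apply]
    rw [h1, Matrix.det_diagonal]
    exact Finset.prod_ne_zero_iff.2 fun i _ => hm.ne_zero i
  obtain ⟨g, hg, hgv⟩ := witt B_symm w m hd fun i j => (hBm i j).symm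
  obtain ⟨X', hX', hs⟩ := hT.isogeny X p hp g hg
  refine ⟨X', hs, _, hX', fun i => ?_, fun i => g (v i),
    hv.map' g.toLinearMap (LinearMap.ker_eq_bot.2 g.injective), fun i => ?_⟩
  · rw [LinearMap.comp_apply, LinearEquiv.coe_coe, ← hgv i, LinearEquiv.symm_apply_apply]
    exact hw i
  · rw [LinearMap.comp_apply, LinearEquiv.coe_coe, LinearEquiv.symm_apply_apply]
    exact hpv i

/-- the surfaces with prescribed divisor classes decide -/
theorem prescribe_iff {T : Surfaces} (hT : T.Facts) {r : ℕ} {m : Fin r → V}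
    (hm : IsAdmissible m) :
    (∀ X : T.Surf, RankAtLeast X (r + 3) → Trivial X) ↔
      ∀ X : T.Surf, RankAtLeast X (r + 3) → Divisors X m → Trivial X := by
  refine ⟨fun h X hX _ => h X hX, fun h X hX => ?_⟩
  obtain ⟨X', hs, p, hp, h1, w, hw, h2⟩ := prescribe hT hm X hX
  exact hs.trivial.2 (h X' ⟨p, hp, w, hw, h2⟩ ⟨p, hp, h1⟩)

end Pool.Agent.Q28.KS
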