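import Pool.Agent.Q28.KS.Zero

/-!
# Moving a subspace of the rational K3 lattice onto prescribed vectors
-/

set_option autoImplicit false

namespace Pool.Agent.Q28.KS

open Pool.Agent.Q28.KI Module Matrix

/-- a subspace can be moved by a rational isometry such that it contains prescribed vectors -/
theorem prescribe_lattice {r : ℕ} {m : Fin r → V} (hm : IsAdmissible m) {N : Submodule ℚ V}
    (hN : Good N) {h : V} (hh : h ∈ N) (hpos : 0 < B h h) (hr : r + 3 ≤ finrank ℚ N) :
    ∃ g : V ≃ₗ[ℚ] V, IsIsometry B g ∧ ∀ i, ∃ z ∈ N, g z = m i := by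
  obtain ⟨w, hw, hB⟩ := Good.chain_general (fun Q => meyer Q) hN hr hh hpos
    (fun i => B (m i) (m i)) hm.ne_zero hm.one_positive
  have hBm : ∀ i j, B (w i) (w j) = B (m i) (m j) := fun i j => by
    rw [hB]
    by_cases hij : i = j
    · rw [if_pos hij, hij]
    · rw [if_neg hij, hm.orthogonal i j hij]
  have hd : (Matrix.of fun i j => B (w i) (w j)).det ≠ 0 := by
    have h1 : (Matrix.of fun i j => B (w i) (w j)) = Matrix.diagonal fun i => B (m i) (m i) := by
      ext i j
      rw [Matrix.of_apply, hB, Matrix.diagonal_apply]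
    rw [h1, Matrix.det_diagonal]
    exact Finset.prod_ne_zero_iff.2 fun i _ => hm.ne_zero i
  obtain ⟨g, hg, hgv⟩ := witt B_symm w m hd fun i j => (hBm i j).symm
  exact ⟨g, hg, fun i => ⟨w i, hw i, hgv i⟩⟩

end Pool.Agent.Q28.KS
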